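import Pool.Agent.Helper4.HZ.Goals
import Pool.Agent.Helper23.Hurwitz.Unique168

/-!
# The quotient of order 168
-/

namespace Pool.Agent.Helper60.HZ

open Pool.Agent.Helper23.Hurwitz Pool.Agent.Helper4.HZ

/-- the involution -/
def mA : Matrix.SpecialLinearGroup (Fin 2) (ZMod 7) := ⟨!![0, -1; 1, 0], by decide⟩

/-- the element of order three -/
def mB : Matrix.SpecialLinearGroup (Fin 2) (ZMod 7) := ⟨!![0, 1; -1, -1], by decide⟩

theorem mA_sq : mA * mA = -1 := by
  apply Subtype.ext
  decide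

theorem mB_cube : mB * (mB * mB) = 1 := by
  apply Subtype.ext
  decide

theorem mAB : mA * mB = ⟨!![1, 1; 0, 1], by decide⟩ := by
  apply Subtype.ext
  decide

theorem mAB_pow : (mA * mB) ^ 7 = 1 := by
  rw [mAB]
  apply Subtype.ext
  simp only [Matrix.SpecialLinearGroup.coe_pow]
  decide

theorem mA_ne : mA * mB ≠ mB * mA := by
  intro h
  have h1 := congrArg (fun M : Matrix.SpecialLinearGroup (Fin 2) (ZMod 7) => M.1 0 1) h
  revert h1
  decide

theorem PSV_holds (hC : S_CRD) : S_PSV := by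
  intro N _ hN
  have : Fact (Nat.Prime 7) := ⟨by norm_num⟩
  have hw : Nat.card (PSL2 7) = 168 := by
    have h1 : 2 * Nat.card (PSL2 7) = 7 * (7 ^ 2 - 1) := hC 7 (by norm_num)
    omega
  have : Finite (PSL2 7) := Nat.finite_of_card_ne_zero (by rw [hw]; norm_num)
  set q : Matrix.SpecialLinearGroup (Fin 2) (ZMod 7) →* PSL2 7 :=
    QuotientGroup.mk' (Subgroup.center (Matrix.SpecialLinearGroup (Fin 2) (ZMod 7))) with hq
  have hq1 : ∀ M, q M = 1 ↔ M ∈ Subgroup.center (Matrix.SpecialLinearGroup (Fin 2) (ZMod 7)) :=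
    fun M => QuotientGroup.eq_one_iff M
  have ha : (q mA) ^ 2 = 1 := by
    rw [← map_pow, hq1, pow_two, mA_sq, Subgroup.mem_center_iff]
    intro g
    simp
  have hb : (q mB) ^ 3 = 1 := by
    rw [← map_pow, pow_succ', pow_two, mB_cube, map_one]
  have hab : (q mA * q mB) ^ 7 = 1 := by
    rw [← map_mul, ← map_pow, mAB_pow, map_one]
  obtain ⟨f, hfx, hfy⟩ := exists_lift (q mA) (q mB) ha hb hab
  have hker : f.ker ≠ ⊤ := by
    intro h
    have h1 : gx ∈ f.ker := by rw [h]; trivial
    rw [MonoidHom.mem_ker, hfx, hq1, Subgroup.mem_center_iff] at h1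
    exact mA_ne (h1 mB).symm
  have hdvd : f.ker.index ∣ 168 := by
    rw [Subgroup.index_ker, ← hw]
    exact Subgroup.card_subgroup_dvd_card _
  have hidx := index_eq_168 f.ker hker hdvd
  have htop : f.range = ⊤ := by
    apply Subgroup.eq_top_of_card_eq
    rw [hw, ← hidx, Subgroup.index_ker]
  have heq : N = f.ker := unique_168 N f.ker hN hidx
  subst heq
  exact ⟨QuotientGroup.quotientKerEquivOfSurjective f (MonoidHom.range_eq_top.1 htop)⟩

end Pool.Agent.Helper60.HZ
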